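import Mathlib

/-! Pieces TU and GRN of project NIL: Turán's inequality and a double count. -/

set_option autoImplicit false

namespace Pool.Agent.Run7.h888.Nil

open Finset

open Classical in
theorem tu (ρ : ℕ → ℕ → Prop) (hρ : ∀ p q, ρ p q → ρ q p) (R : ℕ) : ∀ (n : ℕ) (G : Finset ℕ),
    G.card = n → (∀ U ⊆ G, (∀ p ∈ U, ∀ q ∈ U, p ≠ q → ¬ ρ p q) → U.card ≤ R) →
    G.card ^ 2 ≤ R * ((G ×ˢ G).filter (fun pq : ℕ × ℕ => pq.1 = pq.2 ∨ ρ pq.1 pq.2)).card := by
  intro n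
  induction n using Nat.strong_induction_on with
  | _ n ih =>
  intro G hn hG
  rcases Nat.eq_zero_or_pos n with h0 | hpos
  · rw [hn, h0]; simp
  -- a maximal independent set
  set I : Finset (Finset ℕ) := G.powerset.filter (fun U => ∀ p ∈ U, ∀ q ∈ U, p ≠ q → ¬ ρ p q)
    with hI
  have hIne : I.Nonempty := ⟨∅, by simp [hI]⟩
  obtain ⟨U, hU, hmax⟩ := Finset.exists_max_image I Finset.card hIne
  have hU' : U ⊆ G ∧ ∀ p ∈ U, ∀ q ∈ U, p ≠ q → ¬ ρ p q := by
    simpa [hI] using hU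
  obtain ⟨hUG, hUi⟩ := hU'
  have hUR : U.card ≤ R := hG U hUG hUi
  have hf : ∀ p ∈ G \ U, ∃ v ∈ U, ρ p v := by
    intro p hp
    rw [mem_sdiff] at hp
    by_contra hcon
    push Not at hcon
    have h1 : insert p U ∈ I := by
      simp only [hI, mem_filter, mem_powerset]
      refine ⟨insert_subset hp.1 hUG, ?_⟩
      intro a ha b hb hab
      rw [mem_insert] at ha hb
      rcases ha with rfl | ha <;> rcases hb with rfl | hb
      · exact absurd rfl hab
      · exact hcon b hb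
      · exact fun h => hcon a ha (hρ _ _ h)
      · exact hUi a ha b hb hab
    have h2 := hmax _ h1
    rw [card_insert_of_notMem hp.2] at h2
    omega
  have hUpos : 1 ≤ U.card := by
    have hGne : G.Nonempty := by rw [← card_pos, hn]; exact hpos
    obtain ⟨x, hx⟩ := hGne
    have h1 : ({x} : Finset ℕ) ∈ I := by
      simp only [hI, mem_filter, mem_powerset, singleton_subset_iff]
      refine ⟨hx, ?_⟩
      intro a ha b hb hab
      rw [mem_singleton] at ha hb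
      exact absurd (ha.trans hb.symm) hab
    have := hmax _ h1
    simpa using this
  choose! f hfU hfρ using hf
  set P : ℕ × ℕ → Prop := fun pq => pq.1 = pq.2 ∨ ρ pq.1 pq.2 with hP
  set G' := G \ U with hG'
  have hcard : G'.card + U.card = G.card := by
    rw [hG']; exact card_sdiff_add_card_eq_card hUG
  have h1 := ih G'.card (by omega) G' rfl (fun V hV => hG V (hV.trans sdiff_subset))
  set A : Finset (ℕ × ℕ) := (G' ×ˢ G').filter P with hA
  set D : Finset (ℕ × ℕ) := U.image (fun p => (p, p)) with hD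
  set X : Finset (ℕ × ℕ) := G'.image (fun p => (p, f p)) with hX
  set Y : Finset (ℕ × ℕ) := G'.image (fun p => (f p, p)) with hY
  have cD : D.card = U.card := card_image_of_injective _ fun a b h => (Prod.mk.inj h).1
  have cX : X.card = G'.card := card_image_of_injective _ fun a b h => (Prod.mk.inj h).1
  have cY : Y.card = G'.card := card_image_of_injective _ fun a b h => (Prod.mk.inj h).2
  have mG' : ∀ p ∈ G', p ∈ G ∧ p ∉ U := fun p hp => by
    rw [hG', mem_sdiff] at hp; exact hp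
  have d1 : Disjoint A D := by
    rw [disjoint_left]
    intro x hx hx2
    simp only [hA, mem_filter, mem_product] at hx
    simp only [hD, mem_image] at hx2
    obtain ⟨p, hp, rfl⟩ := hx2
    exact (mG' _ hx.1.1).2 hp
  have d2 : Disjoint (A ∪ D) X := by
    rw [disjoint_left]
    intro x hx hx2
    simp only [hX, mem_image] at hx2
    obtain ⟨p, hp, rfl⟩ := hx2
    rw [mem_union] at hx
    rcases hx with hx | hx
    · simp only [hA, mem_filter, mem_product] at hx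
      exact (mG' _ hx.1.2).2 (hfU p hp)
    · simp only [hD, mem_image] at hx
      obtain ⟨q, hq, h⟩ := hx
      have := (Prod.mk.inj h).1
      exact (mG' _ hp).2 (this ▸ hq)
  have d3 : Disjoint ((A ∪ D) ∪ X) Y := by
    rw [disjoint_left]
    intro x hx hx2
    simp only [hY, mem_image] at hx2
    obtain ⟨p, hp, rfl⟩ := hx2
    rw [mem_union, mem_union] at hx
    rcases hx with (hx | hx) | hx
    · simp only [hA, mem_filter, mem_product] at hx
      exact (mG' _ hx.1.1).2 (hfU p hp)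
    · simp only [hD, mem_image] at hx
      obtain ⟨q, hq, h⟩ := hx
      have := (Prod.mk.inj h).2
      exact (mG' _ hp).2 (this ▸ hq)
    · simp only [hX, mem_image] at hx
      obtain ⟨q, hq, h⟩ := hx
      have h2 := (Prod.mk.inj h).2
      exact (mG' _ hp).2 (h2 ▸ hfU q hq)
  have hsub : ((A ∪ D) ∪ X) ∪ Y ⊆ (G ×ˢ G).filter P := by
    intro x hx
    rw [mem_filter, mem_product]
    rw [mem_union, mem_union, mem_union] at hx
    rcases hx with ((hx | hx) | hx) | hx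
    · simp only [hA, mem_filter, mem_product] at hx
      exact ⟨⟨(mG' _ hx.1.1).1, (mG' _ hx.1.2).1⟩, hx.2⟩
    · simp only [hD, mem_image] at hx
      obtain ⟨q, hq, rfl⟩ := hx
      exact ⟨⟨hUG hq, hUG hq⟩, Or.inl rfl⟩
    · simp only [hX, mem_image] at hx
      obtain ⟨q, hq, rfl⟩ := hx
      exact ⟨⟨(mG' _ hq).1, hUG (hfU q hq)⟩, Or.inr (hfρ q hq)⟩
    · simp only [hY, mem_image] at hx
      obtain ⟨q, hq, rfl⟩ := hx
      exact ⟨⟨hUG (hfU q hq), (mG' _ hq).1⟩, Or.inr (hρ _ _ (hfρ q hq))⟩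
  have hc := card_le_card hsub
  rw [card_union_of_disjoint d3, card_union_of_disjoint d2, card_union_of_disjoint d1, cD, cX, cY]
    at hc
  rw [← hcard]
  have h2 : R * (A.card + U.card + G'.card + G'.card) ≤ R * ((G ×ˢ G).filter P).card :=
    Nat.mul_le_mul_left R hc
  have h3 : U.card * (U.card + 2 * G'.card) ≤ R * (U.card + 2 * G'.card) :=
    Nat.mul_le_mul_right _ hUR
  calc (G'.card + U.card) ^ 2 = G'.card ^ 2 + U.card * (U.card + 2 * G'.card) := by ring
    _ ≤ R * A.card + R * (U.card + 2 * G'.card) := Nat.add_le_add h1 h3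
    _ = R * (A.card + U.card + G'.card + G'.card) := by ring
    _ ≤ R * ((G ×ˢ G).filter P).card := h2

open Classical in
/-- TU -/
theorem t_TU : ∀ (G : Finset ℕ) (ρ : ℕ → ℕ → Prop), (∀ p q, ρ p q → ρ q p) → ∀ R : ℕ,
  (∀ U ⊆ G, (∀ p ∈ U, ∀ q ∈ U, p ≠ q → ¬ ρ p q) → U.card ≤ R) →
  G.card ^ 2 ≤ R * ((G ×ˢ G).filter (fun pq : ℕ × ℕ => pq.1 = pq.2 ∨ ρ pq.1 pq.2)).card :=
  fun G ρ hρ R h => tu ρ hρ R G.card G rfl h

open Classical in
/-- GRN -/
theorem t_GRN : ∀ (Q : Finset ℕ) (E : ℕ → ℕ → Prop) (c : ℝ), 0 < c → c ≤ 1 →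
  4 / c ^ 2 ≤ (Q.card : ℝ) →
  c * (Q.card : ℝ) ^ 2 ≤ (((Q ×ˢ Q).filter (fun pq : ℕ × ℕ => E pq.1 pq.2)).card : ℝ) →
  ∃ p0 ∈ Q, ∃ p1 ∈ Q, p0 ≠ p1 ∧
    c ^ 2 / 8 * (Q.card : ℝ) ≤
      ((Q.filter (fun q => q ≠ p0 ∧ q ≠ p1 ∧ E p0 q ∧ E p1 q)).card : ℝ) := by
  intro Q E c hc hc1 hn hE
  by_contra hcon
  push Not at hcon
  set n : ℝ := (Q.card : ℝ) with hnn
  have hn0 : 0 < n := lt_of_lt_of_le (by positivity) hn
  set e : ℕ → ℕ → ℝ := fun p q => if E p q then 1 else 0 with he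
  have h1 : (((Q ×ˢ Q).filter (fun pq : ℕ × ℕ => E pq.1 pq.2)).card : ℝ) =
      ∑ q ∈ Q, ∑ p ∈ Q, e p q := by
    rw [card_filter, sum_product_right]
    push_cast
    rfl
  rw [h1] at hE
  have h2 : (∑ q ∈ Q, ∑ p ∈ Q, e p q) ^ 2 ≤ n * ∑ q ∈ Q, (∑ p ∈ Q, e p q) ^ 2 :=
    sq_sum_le_card_mul_sum_sq
  have h3 : ∑ q ∈ Q, (∑ p ∈ Q, e p q) ^ 2 = ∑ p0 ∈ Q, ∑ p1 ∈ Q, ∑ q ∈ Q, e p0 q * e p1 q := by
    have : ∀ q ∈ Q, (∑ p ∈ Q, e p q) ^ 2 = ∑ p0 ∈ Q, ∑ p1 ∈ Q, e p0 q * e p1 q := by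
      intro q _
      rw [sq, sum_mul_sum]
    rw [sum_congr rfl this, sum_comm]
    refine sum_congr rfl fun p0 _ => ?_
    rw [sum_comm]
  -- one pair
  have h4 : ∀ p0 ∈ Q, ∀ p1 ∈ Q, ∑ q ∈ Q, e p0 q * e p1 q ≤
      (c ^ 2 / 8 * n + 2) + if p0 = p1 then n else 0 := by
    intro p0 hp0 p1 hp1
    have g0 : ∑ q ∈ Q, e p0 q * e p1 q ≤ n := by
      calc ∑ q ∈ Q, e p0 q * e p1 q ≤ ∑ q ∈ Q, (1 : ℝ) := by
            refine sum_le_sum fun q _ => ?_
            simp only [he]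
            split_ifs <;> norm_num
        _ = n := by simp [hnn]
    by_cases hpp : p0 = p1
    · rw [if_pos hpp]
      have : 0 ≤ c ^ 2 / 8 * n := by positivity
      linarith
    · rw [if_neg hpp, add_zero]
      have g1 := hcon p0 hp0 p1 hp1 hpp
      have g2 : ∑ q ∈ Q, e p0 q * e p1 q =
          ((Q.filter (fun q => E p0 q ∧ E p1 q)).card : ℝ) := by
        rw [card_filter]
        push_cast
        refine sum_congr rfl fun q _ => ?_
        simp only [he]
        by_cases a : E p0 q <;> by_cases b : E p1 q <;> simp [a, b]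
      have g3 : Q.filter (fun q => E p0 q ∧ E p1 q) ⊆
          (Q.filter (fun q => q ≠ p0 ∧ q ≠ p1 ∧ E p0 q ∧ E p1 q)) ∪ {p0, p1} := by
        intro q hq
        rw [mem_filter] at hq
        rw [mem_union, mem_filter]
        by_cases a : q = p0
        · right; simp [a]
        · by_cases b : q = p1
          · right; simp [b]
          · left; exact ⟨hq.1, a, b, hq.2⟩
      have g4 : ((Q.filter (fun q => E p0 q ∧ E p1 q)).card : ℝ) ≤
          ((Q.filter (fun q => q ≠ p0 ∧ q ≠ p1 ∧ E p0 q ∧ E p1 q)).card : ℝ) + 2 := by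
        have k1 := (card_le_card g3).trans (card_union_le _ _)
        have k2 : ({p0, p1} : Finset ℕ).card ≤ 2 := card_le_two
        exact_mod_cast k1.trans (Nat.add_le_add_left k2 _)
      rw [g2]
      linarith
  have h5 : ∑ p0 ∈ Q, ∑ p1 ∈ Q, ∑ q ∈ Q, e p0 q * e p1 q ≤
      n * (n * (c ^ 2 / 8 * n + 2) + n) := by
    have k1 : ∀ p0 ∈ Q, ∑ p1 ∈ Q, ∑ q ∈ Q, e p0 q * e p1 q ≤
        n * (c ^ 2 / 8 * n + 2) + n := by
      intro p0 hp0
      refine (sum_le_sum fun p1 hp1 => h4 p0 hp0 p1 hp1).trans ?_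
      rw [sum_add_distrib, sum_const, nsmul_eq_mul, sum_ite_eq, if_pos hp0]
    refine (sum_le_sum k1).trans ?_
    rw [sum_const, nsmul_eq_mul]
  rw [h3] at h2
  have h6 : (c * n ^ 2) ^ 2 ≤ n * (n * (n * (c ^ 2 / 8 * n + 2) + n)) :=
    (pow_le_pow_left₀ (by positivity) hE 2).trans
      (h2.trans (mul_le_mul_of_nonneg_left h5 hn0.le))
  have h7 : c ^ 2 * n ≤ c ^ 2 * n / 8 + 3 := by
    have k1 : (c * n ^ 2) ^ 2 = n ^ 3 * (c ^ 2 * n) := by ring
    have k2 : n * (n * (n * (c ^ 2 / 8 * n + 2) + n)) = n ^ 3 * (c ^ 2 * n / 8 + 3) := by ring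
    rw [k1, k2] at h6
    exact le_of_mul_le_mul_left h6 (by positivity)
  have h8 : 4 ≤ c ^ 2 * n := by
    rw [div_le_iff₀ (by positivity)] at hn
    linarith
  linarith

end Pool.Agent.Run7.h888.Nil
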