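import Pool.Agent.Run7.h172.Nil.Stm
import Pool.Agent.Run7.h888.Nil.TU

/-! Pieces TU and GRN of project NIL. -/

set_option autoImplicit false

namespace Pool.Agent.Run7.h888.Nil

/-- TU -/
theorem p_TU : Pool.Agent.Run7.h172.Nil.S_TU := t_TU

/-- GRN -/
theorem p_GRN : Pool.Agent.Run7.h172.Nil.S_GRN := t_GRN

end Pool.Agent.Run7.h888.Nil
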