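import Pool.Agent.Run7.h172.Nil.StmD

/-! Piece CRIT of project NIL: the criterion for disjointness with natural averages. -/

set_option autoImplicit false

namespace Pool.Agent.Run7.h888.Nil

open Finset MeasureTheory Filter Topology
open Pool.Agent.Run7.h172.Nil (MomoN NearWin)
open Pool.Agent.Run7.h172.Dyn (shift_sum exists_nu2 ClusterPoint nested_close)

lemma sum_Icc1 {M : Type*} [AddCommMonoid M] (g : ℕ → M) (L : ℕ) :
    ∑ i ∈ Icc 1 L, g i = ∑ i ∈ range L, g (i + 1) := by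
  have : Icc 1 L = Ico 1 (1 + L) := by ext r; simp only [mem_Icc, mem_Ico]; omega
  rw [this, sum_Ico_eq_sum_range, Nat.add_sub_cancel_left]
  exact sum_congr rfl fun i _ => by rw [Nat.add_comm]

lemma sum_Fin1 {M : Type*} [AddCommMonoid M] (g : ℕ → M) (L : ℕ) :
    ∑ i : Fin L, g ((i : ℕ) + 1) = ∑ i ∈ Icc 1 L, g i := by
  rw [sum_Icc1, Fin.sum_univ_eq_sum_range (fun i => g (i + 1)) L]

/-- sums over windows -/
lemma window1 (z : ℕ → ℂ) (F0 : ℝ) (hF0 : 0 ≤ F0) (hz : ∀ r, ‖z r‖ ≤ F0) (n H W : ℕ) :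
    W * ‖∑ r ∈ Ioc n (n + H), z r‖ ≤
      ∑ r ∈ Ioc n (n + H), ‖∑ i ∈ Icc 1 W, z (r + i)‖ + 2 * W ^ 2 * F0 := by
  have h1 : (W : ℂ) * ∑ r ∈ Ioc n (n + H), z r = ∑ r ∈ Ioc n (n + H), ∑ i ∈ Icc 1 W, z (r + i) -
      ∑ i ∈ Icc 1 W, (∑ r ∈ Ioc n (n + H), z (r + i) - ∑ r ∈ Ioc n (n + H), z r) := by
    rw [sum_sub_distrib, sum_const, Nat.card_Icc, Nat.add_sub_cancel, nsmul_eq_mul, sum_comm]
    ring
  have h2 : W * ‖∑ r ∈ Ioc n (n + H), z r‖ = ‖(W : ℂ) * ∑ r ∈ Ioc n (n + H), z r‖ := by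
    rw [norm_mul, Complex.norm_natCast]
  rw [h2, h1]
  refine (norm_sub_le _ _).trans (add_le_add (norm_sum_le _ _) ?_)
  refine (norm_sum_le _ _).trans ?_
  calc ∑ i ∈ Icc 1 W, ‖∑ r ∈ Ioc n (n + H), z (r + i) - ∑ r ∈ Ioc n (n + H), z r‖ ≤
      ∑ i ∈ Icc 1 W, 2 * (W : ℝ) * F0 := by
        refine sum_le_sum fun i hi => (shift_sum z F0 hz n H i).trans ?_
        have : (i : ℝ) ≤ W := by exact_mod_cast (mem_Icc.1 hi).2
        gcongr
    _ = 2 * W ^ 2 * F0 := by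
        rw [sum_const, Nat.card_Icc, Nat.add_sub_cancel, nsmul_eq_mul]; ring

/-- nearly maximal windows -/
lemma near_maxN (u : ℕ → ℂ) (W : Set (ℕ → ℂ)) (L r : ℕ) (M : ℝ)
    (hM : ∀ w : ℕ → ℂ, (w ∈ W ∨ w = 0) → ‖∑ i ∈ Icc 1 L, u (r + i) * w i‖ ≤ M) (δ : ℝ)
    (hδ : 0 < δ) : ∃ w : ℕ → ℂ, (w ∈ W ∨ w = 0) ∧ ∀ w' : ℕ → ℂ, (w' ∈ W ∨ w' = 0) →
      ‖∑ i ∈ Icc 1 L, u (r + i) * w' i‖ ≤ ‖∑ i ∈ Icc 1 L, u (r + i) * w i‖ + δ := by
  set S : Set ℝ := {t | ∃ w : ℕ → ℂ, (w ∈ W ∨ w = 0) ∧ ‖∑ i ∈ Icc 1 L, u (r + i) * w i‖ = t}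
    with hS
  have hne : S.Nonempty := ⟨_, 0, Or.inr rfl, rfl⟩
  have hbdd : BddAbove S := by
    refine ⟨M, ?_⟩
    rintro _ ⟨w, hw, rfl⟩
    exact hM w hw
  obtain ⟨_, ⟨w, hw, rfl⟩, h2⟩ := exists_lt_of_lt_csSup hne (sub_lt_self (sSup S) hδ)
  refine ⟨w, hw, fun w' hw' => ?_⟩
  have h3 := le_csSup hbdd ⟨w', hw', rfl⟩
  linarith

section dist

variable {X : Type*}

/-- the segment of the orbit -/
noncomputable def segN (T : X → X) (f : X → ℂ) (L : ℕ) (x : X) : PiLp 1 (fun _ : Fin L => ℂ) :=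
  WithLp.toLp 1 fun i => f (T^[(i : ℕ) + 1] x)

/-- the windows of length `L` -/
def WS (W : Set (ℕ → ℂ)) (L : ℕ) : Set (PiLp 1 (fun _ : Fin L => ℂ)) :=
  {v | ∃ w : ℕ → ℂ, (w ∈ W ∨ w = 0) ∧ ∀ i : Fin L, v i = w ((i : ℕ) + 1)}

/-- the distance of the segment from the windows -/
noncomputable def DN (T : X → X) (f : X → ℂ) (W : Set (ℕ → ℂ)) (L : ℕ) (x : X) : ℝ :=
  Metric.infDist (segN T f L x) (WS W L)

lemma DN_cont [TopologicalSpace X] {T : X → X} (hT : Continuous T) {f : X → ℂ}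
    (hf : Continuous f) (W : Set (ℕ → ℂ)) (L : ℕ) : Continuous (DN T f W L) := by
  refine (Metric.continuous_infDist_pt _).comp ?_
  unfold segN
  refine (PiLp.continuous_toLp 1 _).comp ?_
  exact continuous_pi fun i => hf.comp (hT.iterate _)

lemma WS_nonempty (W : Set (ℕ → ℂ)) (L : ℕ) : (WS W L).Nonempty :=
  ⟨WithLp.toLp 1 fun _ => 0, 0, Or.inr rfl, fun _ => rfl⟩

lemma DN_approx (T : X → X) (f : X → ℂ) (W : Set (ℕ → ℂ)) (L : ℕ) (x : X) (δ : ℝ) (hδ : 0 < δ) :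
    ∃ w : ℕ → ℂ, (w ∈ W ∨ w = 0) ∧ ∑ i ∈ Icc 1 L, ‖f (T^[i] x) - w i‖ ≤ DN T f W L x + δ := by
  have h1 : Metric.infDist (segN T f L x) (WS W L) < DN T f W L x + δ := by
    unfold DN; linarith
  obtain ⟨v, ⟨w, h2, h4⟩, h5⟩ := (Metric.infDist_lt_iff (WS_nonempty W L)).1 h1
  refine ⟨w, h2, ?_⟩
  rw [PiLp.dist_eq_of_L1] at h5
  refine le_trans (le_of_eq ?_) h5.le
  rw [← sum_Fin1 (fun i => ‖f (T^[i] x) - w i‖)]
  refine sum_congr rfl fun i _ => ?_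
  rw [dist_eq_norm, h4]
  rfl

lemma DN_le (T : X → X) (f : X → ℂ) (W : Set (ℕ → ℂ)) (L : ℕ) (x : X) (w : ℕ → ℂ)
    (hw : w ∈ W ∨ w = 0) : DN T f W L x ≤ ∑ i ∈ Icc 1 L, ‖f (T^[i] x) - w i‖ := by
  have h1 : (WithLp.toLp 1 (fun i : Fin L => w ((i : ℕ) + 1)) : PiLp 1 (fun _ : Fin L => ℂ)) ∈
      WS W L := ⟨w, hw, fun _ => rfl⟩
  refine (Metric.infDist_le_dist_of_mem h1).trans (le_of_eq ?_)
  rw [PiLp.dist_eq_of_L1, ← sum_Fin1 (fun i => ‖f (T^[i] x) - w i‖)]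
  refine sum_congr rfl fun i _ => ?_
  rw [dist_eq_norm]
  rfl

lemma DN_nonneg (T : X → X) (f : X → ℂ) (W : Set (ℕ → ℂ)) (L : ℕ) (x : X) :
    0 ≤ DN T f W L x := Metric.infDist_nonneg

lemma DN_int [TopologicalSpace X] [CompactSpace X] [MeasurableSpace X] [BorelSpace X]
    {T : X → X} (hT : Continuous T)
    {ν : Measure X} [IsProbabilityMeasure ν] {f : X → ℂ} (hf : Continuous f)
    {F0 : ℝ} (hF0 : 0 ≤ F0) (hF1 : ∀ x, ‖f x‖ ≤ F0) (W : Set (ℕ → ℂ)) (L : ℕ) {ε1 : ℝ}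
    (hε1 : 0 < ε1)
    (h : ENNReal.ofReal (1 - ε1) ≤ ν {y | ∃ w ∈ W, ∑ i ∈ Icc 1 L, ‖f (T^[i] y) - w i‖ < ε1 * L}) :
    ∫ x, DN T f W L x ∂ν ≤ ε1 * L * (1 + F0) := by
  have hc := DN_cont hT hf W L
  set A : Set X := {x | DN T f W L x < ε1 * L} with hA
  have hAm : MeasurableSet A := (isOpen_lt hc continuous_const).measurableSet
  have h1 : ENNReal.ofReal (1 - ε1) ≤ ν A := by
    refine h.trans (measure_mono ?_)
    rintro y ⟨w, hw, hy⟩
    exact (DN_le T f W L y w (Or.inl hw)).trans_lt hy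
  have h2 : ν Aᶜ ≤ ENNReal.ofReal ε1 := by
    rw [prob_compl_eq_one_sub hAm, tsub_le_iff_right]
    have h3 : (1 : ENNReal) = ENNReal.ofReal (ε1 + (1 - ε1)) := by
      rw [show ε1 + (1 - ε1) = 1 by ring, ENNReal.ofReal_one]
    rw [h3]
    exact ENNReal.ofReal_add_le.trans (add_le_add le_rfl h1)
  have h3 : ν.real Aᶜ ≤ ε1 := by
    have := ENNReal.toReal_mono ENNReal.ofReal_ne_top h2
    rwa [ENNReal.toReal_ofReal hε1.le] at this
  have hb : ∀ x, DN T f W L x ≤ F0 * L := by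
    intro x
    refine (DN_le T f W L x 0 (Or.inr rfl)).trans ?_
    calc ∑ i ∈ Icc 1 L, ‖f (T^[i] x) - (0 : ℕ → ℂ) i‖ ≤ ∑ i ∈ Icc 1 L, F0 := by
          refine sum_le_sum fun i _ => ?_
          rw [Pi.zero_apply, sub_zero]
          exact hF1 _
      _ = F0 * L := by rw [sum_const, Nat.card_Icc, Nat.add_sub_cancel, nsmul_eq_mul]; ring
  have hpt : ∀ x, DN T f W L x ≤ ε1 * L + Aᶜ.indicator (fun _ => F0 * L) x := by
    intro x
    by_cases hx : x ∈ A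
    · rw [Set.indicator_of_notMem (by simpa using hx), add_zero]
      exact le_of_lt hx
    · rw [Set.indicator_of_mem (by simpa using hx)]
      have := hb x
      have : 0 ≤ ε1 * L := by positivity
      linarith
  have hi1 : Integrable (fun x => DN T f W L x) ν := by
    refine Integrable.of_bound hc.aestronglyMeasurable (F0 * L) (Eventually.of_forall fun x => ?_)
    rw [Real.norm_of_nonneg (DN_nonneg _ _ _ _ _)]
    exact hb x
  have hi2 : Integrable (fun x => Aᶜ.indicator (fun _ => F0 * (L : ℝ)) x) ν :=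
    (integrable_const _).indicator hAm.compl
  calc ∫ x, DN T f W L x ∂ν ≤ ∫ x, (ε1 * L + Aᶜ.indicator (fun _ => F0 * (L : ℝ)) x) ∂ν :=
        integral_mono hi1 ((integrable_const _).add hi2) hpt
    _ = ε1 * L + ν.real Aᶜ * (F0 * L) := by
        rw [integral_add (integrable_const _) hi2, integral_indicator_const _ hAm.compl]
        simp
    _ ≤ ε1 * L + ε1 * (F0 * L) := by
        have : 0 ≤ F0 * L := by positivity
        gcongr
    _ = _ := by ring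

end dist

variable {X : Type*} [MetricSpace X] [CompactSpace X] [MeasurableSpace X] [BorelSpace X]

/-- the key estimate -/
theorem keyC {T : X → X} (hT : Continuous T) {ν : Measure X} [IsProbabilityMeasure ν]
    {u : ℕ → ℂ} (hu : ∀ n, ‖u n‖ ≤ 1) (f : C(X, ℂ)) (hp : NearWin T ν f u) (Nn Hn : ℕ → ℕ)
    (y : ℕ → ℕ → X) {𝒱 : Ultrafilter ℕ}
    (hH : Tendsto Hn 𝒱 atTop) (hNH : ∀ j, Hn j ≤ Nn j)
    (hlim : ∀ g : C(X, ℝ), Tendsto (fun j => (1 / ((Nn j * Hn j : ℕ) : ℝ)) * ∑ n ∈ range (Nn j),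
        ∑ r ∈ Ioc n (n + Hn j), g (T^[r] (y j n))) 𝒱 (𝓝 (∫ x, g x ∂ν))) (ε : ℝ) (hε : 0 < ε) :
    ∀ᶠ j in (𝒱 : Filter ℕ), ∑ n ∈ range (Nn j),
      ‖∑ r ∈ Ioc n (n + Hn j), u r * f (T^[r] (y j n))‖ ≤ ε * Hn j * Nn j := by
  obtain ⟨F0, hF0, hF1⟩ : ∃ F0 : ℝ, 0 ≤ F0 ∧ ∀ x, ‖f x‖ ≤ F0 :=
    ⟨‖f‖, norm_nonneg _, fun x => f.norm_coe_le_norm x⟩
  obtain ⟨ε1, hε1⟩ : ∃ ε1 : ℝ, ε1 = ε / (8 * (1 + F0)) := ⟨_, rfl⟩
  have hε10 : 0 < ε1 := by rw [hε1]; positivity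
  have hε11 : ε1 * (1 + F0) = ε / 8 := by rw [hε1]; field_simp
  obtain ⟨W, hWM, hWn⟩ := hp ε1 hε10
  obtain ⟨L0, hL0⟩ := hWM (ε / 16) (by positivity)
  obtain ⟨L, hL⟩ : ∃ L : ℕ, L = L0 + 1 := ⟨_, rfl⟩
  have hL1 : 1 ≤ L := by omega
  have hLr : (0 : ℝ) < L := by rw [hL]; positivity
  have hmom := fun N (h : L ≤ N) => hL0 N L (by omega) h
  -- the mean of the distances
  have h1 := hlim ⟨DN T f W L, DN_cont hT f.continuous W L⟩
  have h2 : ∀ᶠ j in (𝒱 : Filter ℕ), (1 / ((Nn j * Hn j : ℕ) : ℝ)) * ∑ n ∈ range (Nn j),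
        ∑ r ∈ Ioc n (n + Hn j), DN T f W L (T^[r] (y j n)) < L * (ε / 4) := by
    refine h1.eventually_lt_const ?_
    show ∫ x, DN T f W L x ∂ν < L * (ε / 4)
    calc ∫ x, DN T f W L x ∂ν ≤ ε1 * L * (1 + F0) :=
          DN_int hT f.continuous hF0 hF1 W L hε10 (hWn L hL1)
      _ = L * (ε / 8) := by rw [← hε11]; ring
      _ < L * (ε / 4) := mul_lt_mul_of_pos_left (by linarith) hLr
  obtain ⟨H1, hH1⟩ := exists_nat_ge (16 * L * F0 / ε)
  filter_upwards [h2, hH.eventually_ge_atTop (L + H1)] with j hj1 hj2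
  obtain ⟨N, hN⟩ : ∃ N : ℕ, N = Nn j := ⟨_, rfl⟩
  obtain ⟨H, hHd⟩ : ∃ H : ℕ, H = Hn j := ⟨_, rfl⟩
  have hNH' := hNH j
  rw [← hN, ← hHd] at hj1 hNH'
  rw [← hHd] at hj2
  rw [← hN, ← hHd]
  have hHr : (0 : ℝ) < H := by exact_mod_cast (by omega : 0 < H)
  have hNr : (0 : ℝ) < N := by exact_mod_cast (by omega : 0 < N)
  have hHN : (H : ℝ) ≤ N := by exact_mod_cast hNH'
  have hHF : 16 * L * F0 ≤ ε * H := by
    have : 16 * L * F0 / ε ≤ H := hH1.trans (by exact_mod_cast (by omega : H1 ≤ H))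
    rw [div_le_iff₀ hε] at this
    linarith
  -- near maximizers
  have hnm : ∀ r : ℕ, 1 ≤ r → ∃ w : ℕ → ℂ, (w ∈ W ∨ w = 0) ∧ ∀ w' : ℕ → ℂ, (w' ∈ W ∨ w' = 0) →
      ‖∑ i ∈ Icc 1 L, u (r + i) * w' i‖ ≤ ‖∑ i ∈ Icc 1 L, u (r + i) * w i‖ + L * (ε / 16) := by
    intro r hr
    refine near_maxN u W L r (ε / 16 * L * (max L r : ℕ)) (fun w hw => ?_) _ (by positivity)
    have h3 := hmom (max L r) (le_max_left _ _) (fun n => if n = r then w else 0) (fun n => by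
      by_cases hn : n = r
      · simp only [hn, if_true]; exact hw
      · simp only [hn, if_false]; right; trivial)
    refine le_trans ?_ h3
    have h4 := single_le_sum (f := fun n => ‖∑ h ∈ Icc 1 L, u (n + h) *
      (if n = r then w else 0) h‖) (fun n _ => norm_nonneg _)
      (show r ∈ Icc 1 (max L r) from mem_Icc.2 ⟨hr, le_max_right _ _⟩)
    simpa using h4
  have hnm' : ∀ r : ℕ, ∃ w : ℕ → ℂ, (w ∈ W ∨ w = 0) ∧ (1 ≤ r → ∀ w' : ℕ → ℂ, (w' ∈ W ∨ w' = 0) →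
      ‖∑ i ∈ Icc 1 L, u (r + i) * w' i‖ ≤ ‖∑ i ∈ Icc 1 L, u (r + i) * w i‖ + L * (ε / 16)) := by
    intro r
    by_cases hr : 1 ≤ r
    · obtain ⟨w, hw, h3⟩ := hnm r hr
      exact ⟨w, hw, fun _ => h3⟩
    · exact ⟨0, Or.inr rfl, fun h => absurd h hr⟩
  choose w hw1 hw2 using hnm'
  set g : ℕ → ℝ := fun r => ‖∑ i ∈ Icc 1 L, u (r + i) * w r i‖ with hg
  have hgm : ∑ r ∈ Icc 1 (N + H), g r ≤ ε / 16 * L * (N + H : ℕ) :=
    hmom (N + H) (by omega) w hw1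
  -- one starting point
  have hone : ∀ n ∈ range N, L * ‖∑ r ∈ Ioc n (n + H), u r * f (T^[r] (y j n))‖ ≤
      ∑ r ∈ Ioc n (n + H), DN T f W L (T^[r] (y j n)) + H * (L * (ε / 16)) +
        (∑ r ∈ Ioc n (n + H), g r + H * (L * (ε / 16))) + 2 * L ^ 2 * F0 := by
    intro n _
    have hz : ∀ r, ‖u r * f (T^[r] (y j n))‖ ≤ F0 := by
      intro r
      rw [norm_mul]
      calc ‖u r‖ * ‖f (T^[r] (y j n))‖ ≤ 1 * F0 :=
            mul_le_mul (hu r) (hF1 _) (norm_nonneg _) (by norm_num)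
        _ = F0 := one_mul _
    refine (window1 _ F0 hF0 hz n H L).trans ?_
    apply add_le_add _ le_rfl
    have h3 : ∀ r ∈ Ioc n (n + H), ‖∑ i ∈ Icc 1 L, u (r + i) * f (T^[r + i] (y j n))‖ ≤
        DN T f W L (T^[r] (y j n)) + L * (ε / 16) + (g r + L * (ε / 16)) := by
      intro r hr
      have hr1 : 1 ≤ r := by have := (mem_Ioc.1 hr).1; omega
      obtain ⟨v, hv1, hv2⟩ := DN_approx T f W L (T^[r] (y j n)) (L * (ε / 16)) (by positivity)
      have h4 := hw2 r hr1 v hv1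
      have e1 : ∑ i ∈ Icc 1 L, u (r + i) * f (T^[r + i] (y j n)) =
          ∑ i ∈ Icc 1 L, u (r + i) * (f (T^[i] (T^[r] (y j n))) - v i) +
          ∑ i ∈ Icc 1 L, u (r + i) * v i := by
        rw [← sum_add_distrib]
        refine sum_congr rfl fun i _ => ?_
        rw [← Function.iterate_add_apply, Nat.add_comm i r]
        ring
      rw [e1]
      refine (norm_add_le _ _).trans (add_le_add ?_ h4)
      refine (norm_sum_le _ _).trans (le_trans (sum_le_sum fun i _ => ?_) hv2)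
      rw [norm_mul]
      calc ‖u (r + i)‖ * ‖f (T^[i] (T^[r] (y j n))) - v i‖ ≤
            1 * ‖f (T^[i] (T^[r] (y j n))) - v i‖ :=
            mul_le_mul_of_nonneg_right (hu _) (norm_nonneg _)
        _ = _ := one_mul _
    refine (sum_le_sum h3).trans (le_of_eq ?_)
    simp only [sum_add_distrib, sum_const, Nat.card_Ioc, Nat.add_sub_cancel_left, nsmul_eq_mul]
  -- the sum over the starting points
  have hgsum : ∑ n ∈ range N, ∑ r ∈ Ioc n (n + H), g r ≤ H * (ε / 16 * L * (N + H)) := by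
    have e1 : ∀ n, ∑ r ∈ Ioc n (n + H), g r = ∑ i ∈ range H, g (n + 1 + i) := by
      intro n
      have : Ioc n (n + H) = Ico (n + 1) (n + 1 + H) := by
        ext r; simp only [mem_Ioc, mem_Ico]; omega
      rw [this, sum_Ico_eq_sum_range, Nat.add_sub_cancel_left]
    simp_rw [e1]
    rw [sum_comm]
    calc ∑ i ∈ range H, ∑ n ∈ range N, g (n + 1 + i) ≤ ∑ i ∈ range H, ε / 16 * L * (N + H) := by
          refine sum_le_sum fun i hi => ?_
          rw [mem_range] at hi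
          refine le_trans ?_ (hgm.trans (le_of_eq (by push_cast; ring)))
          have e2 : ∑ n ∈ range N, g (n + 1 + i) =
              ∑ r ∈ (range N).image (fun n => n + 1 + i), g r := by
            rw [sum_image fun a _ b _ hab => by omega]
          rw [e2]
          apply sum_le_sum_of_subset_of_nonneg
          · intro r hr
            rw [mem_image] at hr
            obtain ⟨n, hn, rfl⟩ := hr
            rw [mem_range] at hn
            rw [mem_Icc]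
            omega
          · intro r _ _
            exact norm_nonneg _
      _ = _ := by rw [sum_const, card_range, nsmul_eq_mul]
  have hDsum : ∑ n ∈ range N, ∑ r ∈ Ioc n (n + H), DN T f W L (T^[r] (y j n)) ≤
      L * (ε / 4) * (N * H) := by
    have h5 := hj1.le
    rw [one_div, inv_mul_le_iff₀ (by push_cast; positivity)] at h5
    refine h5.trans (le_of_eq ?_)
    push_cast
    ring
  have hsum := sum_le_sum hone
  rw [← mul_sum] at hsum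
  have htot : L * ∑ n ∈ range N, ‖∑ r ∈ Ioc n (n + H), u r * f (T^[r] (y j n))‖ ≤
      L * (ε * H * N) := by
    refine hsum.trans ?_
    simp only [sum_add_distrib, ← mul_sum, sum_const, card_range, nsmul_eq_mul]
    have h6 : ∑ n ∈ range N, ∑ r ∈ Ioc n (n + H), g r ≤ ε / 8 * (L * (N * H)) := by
      refine hgsum.trans ?_
      have h9 : (N : ℝ) + H ≤ 2 * N := by linarith
      calc (H : ℝ) * (ε / 16 * L * (N + H)) ≤ H * (ε / 16 * L * (2 * N)) := by gcongr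
        _ = _ := by ring
    have h7 : (N : ℝ) * (2 * L ^ 2 * F0) ≤ ε / 8 * (L * (N * H)) := by
      have : (N : ℝ) * (2 * L ^ 2 * F0) = (L * N) / 8 * (16 * L * F0) := by ring
      rw [this]
      calc (L : ℝ) * N / 8 * (16 * L * F0) ≤ L * N / 8 * (ε * H) :=
            mul_le_mul_of_nonneg_left hHF (by positivity)
        _ = _ := by ring
    have h8 : (0 : ℝ) ≤ ε * (L * (N * H)) := by positivity
    nlinarith [hDsum, h6, h7, h8]
  exact le_of_mul_le_mul_left htot hLr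

/-- CRIT -/
theorem crit {T : X → X} (hT : Continuous T) (u : ℕ → ℂ) (hu : ∀ n, ‖u n‖ ≤ 1) (f : C(X, ℂ)) :
    (∀ P : Set X, (∀ ν : Measure X, IsProbabilityMeasure ν → MeasurePreserving T ν ν →
      ClusterPoint T P ν → NearWin T ν f u) → ∀ ε : ℝ, 0 < ε →
      ∃ N0 : ℕ, ∀ N ≥ N0, ∀ x ∈ P, ‖∑ n ∈ Icc 1 N, u n * f (T^[n] x)‖ ≤ ε * N) ∧
    ((∀ ν : Measure X, IsProbabilityMeasure ν → MeasurePreserving T ν ν → NearWin T ν f u) →
      ∀ ε : ℝ, 0 < ε → ∃ H0 : ℕ, ∀ H ≥ H0, ∀ N ≥ H, ∀ y : ℕ → X,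
        ∑ n ∈ range N, ‖∑ m ∈ Ioc n (n + H), u m * f (T^[m] (y n))‖ ≤ ε * H * N) := by
  constructor
  · intro P hp ε hε
    by_contra hcon
    push Not at hcon
    choose Nn hNn x hxP hbig using hcon
    obtain ⟨F0, hF0, hF1⟩ : ∃ F0 : ℝ, 0 ≤ F0 ∧ ∀ x, ‖f x‖ ≤ F0 :=
      ⟨‖f‖, norm_nonneg _, fun x => f.norm_coe_le_norm x⟩
    obtain ⟨𝒱, h𝒱⟩ : ∃ 𝒱 : Ultrafilter ℕ, (𝒱 : Filter ℕ) ≤ atTop :=
      ⟨Filter.hyperfilter ℕ, Nat.hyperfilter_le_atTop⟩
    set Hn : ℕ → ℕ := fun j => Nat.sqrt (Nn j) with hHn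
    have hHsq : ∀ j, Hn j * Hn j ≤ Nn j := fun j => Nat.sqrt_le (Nn j)
    have hHN : ∀ j, Hn j ≤ Nn j := fun j => Nat.sqrt_le_self _
    have hsq : Tendsto Nat.sqrt atTop atTop := by
      refine tendsto_atTop_atTop.2 fun b => ⟨b * b, fun n hn => ?_⟩
      exact Nat.le_sqrt.2 hn
    have hH : Tendsto Hn 𝒱 atTop := by
      have : Tendsto Nn atTop atTop := tendsto_atTop_mono hNn tendsto_id
      exact (hsq.comp this).mono_left h𝒱
    obtain ⟨ν, hν1, hν2, hν4, hν3⟩ := exists_nu2 hT Nn Hn (fun j _ => x j) hH hHN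
    -- a cluster point
    have hclu : ClusterPoint T P ν := by
      intro F δ hδ N₀
      have h1 : ∀ᶠ j in (𝒱 : Filter ℕ), ∀ g ∈ F,
          ‖(1 / (Nn j : ℂ)) * ∑ n ∈ Icc 1 (Nn j), g (T^[n] (x j)) - ∫ y, g y ∂ν‖ < δ := by
        rw [Filter.eventually_all_finset]
        intro g _
        have h2 := Metric.tendsto_nhds.1 (hν4 g) (δ / 2) (by positivity)
        obtain ⟨H1, hH1⟩ := exists_nat_gt (2 * ‖g‖ / (δ / 2))
        filter_upwards [h2, hH.eventually_ge_atTop (H1 + 1)] with j hj1 hj2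
        rw [dist_eq_norm] at hj1
        have h3 := nested_close (fun n => g (T^[n] (x j))) ‖g‖ (norm_nonneg _)
          (fun r => g.norm_coe_le_norm _) (Nn j) (Hn j) (by omega) (hHsq j)
        have hHr : (0 : ℝ) < Hn j := by exact_mod_cast (by omega : 0 < Hn j)
        have h4 : 2 * ‖g‖ / (Hn j : ℝ) < δ / 2 := by
          have h5 : (H1 : ℝ) ≤ Hn j := by exact_mod_cast (by omega : H1 ≤ Hn j)
          have h6 := hH1.trans_le h5
          rw [div_lt_iff₀ (by positivity)] at h6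
          rw [div_lt_iff₀ hHr]
          linarith
        have e1 : (1 / (Nn j : ℂ)) * ∑ n ∈ Icc 1 (Nn j), g (T^[n] (x j)) - ∫ y, g y ∂ν =
            -((1 / ((Nn j * Hn j : ℕ) : ℂ)) * ∑ n ∈ range (Nn j),
              ∑ r ∈ Ioc n (n + Hn j), g (T^[r] (x j)) -
              (1 / (Nn j : ℂ)) * ∑ n ∈ Icc 1 (Nn j), g (T^[n] (x j))) +
            ((1 / ((Nn j * Hn j : ℕ) : ℂ)) * ∑ n ∈ range (Nn j),
              ∑ r ∈ Ioc n (n + Hn j), g (T^[r] (x j)) - ∫ y, g y ∂ν) := by ring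
        rw [e1]
        refine (norm_add_le _ _).trans_lt ?_
        rw [norm_neg]
        linarith
      obtain ⟨j, hj1, hj2⟩ := (h1.and (hH.eventually_ge_atTop N₀)).exists
      exact ⟨Nn j, hj2.trans (hHN j), x j, hxP j, hj1⟩
    have h1 := keyC hT hu f (hp ν hν1 hν2 hclu) Nn Hn (fun j _ => x j) hH hHN hν3
      (ε / 2) (by positivity)
    obtain ⟨H1, hH1⟩ := exists_nat_ge (4 * F0 / ε)
    obtain ⟨j, hj1, hj2⟩ := (h1.and (hH.eventually_ge_atTop (H1 + 1))).exists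
    have hHr : (0 : ℝ) < Hn j := by exact_mod_cast (by omega : 0 < Hn j)
    have hHF : 4 * F0 ≤ ε * Hn j := by
      have : 4 * F0 / ε ≤ Hn j := hH1.trans (by exact_mod_cast (by omega : H1 ≤ Hn j))
      rw [div_le_iff₀ hε] at this
      linarith
    set z : ℕ → ℂ := fun r => u r * f (T^[r] (x j)) with hz
    have hzF : ∀ r, ‖z r‖ ≤ F0 := by
      intro r
      simp only [hz]
      rw [norm_mul]
      calc ‖u r‖ * ‖f (T^[r] (x j))‖ ≤ 1 * F0 :=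
            mul_le_mul (hu r) (hF1 _) (norm_nonneg _) (by norm_num)
        _ = F0 := one_mul _
    have h2 := Pool.Agent.Run7.h172.Dyn.window_sum z F0 hF0 hzF 0 (Nn j) (Hn j)
    have e1 : ∑ r ∈ Ioc 0 (0 + Nn j), ‖∑ i ∈ range (Hn j), z (r + i)‖ =
        ∑ n ∈ range (Nn j), ‖∑ r ∈ Ioc n (n + Hn j), z r‖ := by
      have : Ioc 0 (0 + Nn j) = Ico 1 (1 + Nn j) := by
        ext r; simp only [mem_Ioc, mem_Ico]; omega
      rw [this, sum_Ico_eq_sum_range, Nat.add_sub_cancel_left]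
      refine sum_congr rfl fun n _ => ?_
      congr 1
      have : Ioc n (n + Hn j) = Ico (n + 1) (n + 1 + Hn j) := by
        ext r; simp only [mem_Ioc, mem_Ico]; omega
      rw [this, sum_Ico_eq_sum_range, Nat.add_sub_cancel_left]
      refine sum_congr rfl fun i _ => ?_
      congr 1
      omega
    rw [e1] at h2
    have h3 := hbig j
    have e0 : Icc 1 (Nn j) = Ioc 0 (0 + Nn j) := by ext r; simp only [mem_Ioc, mem_Icc]; omega
    rw [e0] at h3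
    have hsq' : (Hn j : ℝ) * Hn j ≤ Nn j := by exact_mod_cast hHsq j
    have h4 : (Hn j : ℝ) * ‖∑ r ∈ Ioc 0 (0 + Nn j), z r‖ ≤ Hn j * (ε * Nn j) := by
      refine h2.trans ?_
      have h5 : 2 * (Hn j : ℝ) ^ 2 * F0 ≤ Hn j * (ε / 2 * Nn j) := by
        calc 2 * (Hn j : ℝ) ^ 2 * F0 = (Hn j : ℝ) ^ 2 / 2 * (4 * F0) := by ring
          _ ≤ (Hn j : ℝ) ^ 2 / 2 * (ε * Hn j) := mul_le_mul_of_nonneg_left hHF (by positivity)
          _ = Hn j * (ε / 2 * (Hn j * Hn j)) := by ring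
          _ ≤ Hn j * (ε / 2 * Nn j) := by gcongr
      calc ∑ n ∈ range (Nn j), ‖∑ r ∈ Ioc n (n + Hn j), z r‖ + 2 * (Hn j : ℝ) ^ 2 * F0 ≤
          ε / 2 * Hn j * Nn j + Hn j * (ε / 2 * Nn j) := add_le_add hj1 h5
        _ = _ := by ring
    have h5 := le_of_mul_le_mul_left h4 hHr
    exact absurd h5 (not_le.2 h3)
  · intro hp ε hε
    by_contra hcon
    push Not at hcon
    choose Hn hHn Nn hNn y hbig using hcon
    obtain ⟨𝒱, h𝒱⟩ : ∃ 𝒱 : Ultrafilter ℕ, (𝒱 : Filter ℕ) ≤ atTop :=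
      ⟨Filter.hyperfilter ℕ, Nat.hyperfilter_le_atTop⟩
    have hH : Tendsto Hn 𝒱 atTop := by
      have : Tendsto Hn atTop atTop := tendsto_atTop_mono hHn tendsto_id
      exact this.mono_left h𝒱
    obtain ⟨ν, hν1, hν2, -, hν3⟩ := exists_nu2 hT Nn Hn y hH hNn
    have h1 := keyC hT hu f (hp ν hν1 hν2) Nn Hn y hH hNn hν3 ε hε
    obtain ⟨j, hj⟩ := h1.exists
    exact absurd hj (not_le.2 (hbig j))

end Pool.Agent.Run7.h888.Nil
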